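import Mathlib
import Pool.Agent.Lib.MP_ed68f3_an.Final

set_option autoImplicit false

namespace Pool.Agent.Results.MP_ed68f3_an.NoRetract

open Pool.Agent.Lib.MP_ed68f3_an

/-- There is a separable real Banach space in which no compact convex generating set containing
the origin is a Lipschitz retract. -/
theorem result :
    ∃ (X : Type) (_ : NormedAddCommGroup X) (_ : NormedSpace ℝ X),
      CompleteSpace X ∧ TopologicalSpace.SeparableSpace X ∧
      ∀ K : Set X, IsCompact K → Convex ℝ K → (0 : X) ∈ K →
        (Submodule.span ℝ K).topologicalClosure = ⊤ →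
        ¬ ∃ (r : X → K) (L : NNReal), LipschitzWith L r ∧ ∀ a : K, r a = a := by
  obtain ⟨S⟩ := nonempty_sys
  refine ⟨S.sub, inferInstance, inferInstance, S.complete, S.separable, ?_⟩
  rintro K hK hc h0 hd ⟨r, L, hr, hfix⟩
  have := S.complete
  refine no_retract S.enflo K hK hc h0 (Submodule.dense_iff_topologicalClosure_eq_top.mpr hd)
    (fun x => (r x : S.sub)) L ?_ (fun x => (r x).2) (fun x hx => ?_)
  · simpa using! (LipschitzWith.subtype_val K).comp hr
  · exact congrArg Subtype.val (hfix ⟨x, hx⟩)

end Pool.Agent.Results.MP_ed68f3_an.NoRetract
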