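import Mathlib
import Pool.Agent.Lib.MP_ed68f3_an.Final

set_option autoImplicit false

namespace Pool.Agent.Results.MP_ed68f3_an.NotLipApprox

open Pool.Agent.Lib.MP_ed68f3_an

/-- There is a separable real Banach space whose identity map is not a pointwise limit of a
sequence of uniformly Lipschitz maps with relatively compact range. -/
theorem result :
    ∃ (X : Type) (_ : NormedAddCommGroup X) (_ : NormedSpace ℝ X),
      CompleteSpace X ∧ TopologicalSpace.SeparableSpace X ∧
      ¬ ∃ (L : NNReal) (f : ℕ → X → X), (∀ n, LipschitzWith L (f n)) ∧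
        (∀ n, IsCompact (closure (Set.range (f n)))) ∧
        ∀ x, Filter.Tendsto (fun n => f n x) Filter.atTop (nhds x) := by
  obtain ⟨S⟩ := nonempty_sys
  refine ⟨S.sub, inferInstance, inferInstance, S.complete, S.separable, ?_⟩
  rintro ⟨L, f, hL, hK, hlim⟩
  have := S.complete
  obtain ⟨k0, ε, hε, h⟩ := core S.enflo L
  have hQ : IsCompact ((comb (S.enflo.e k0)) '' Metric.closedBall 0 1) :=
    (isCompact_closedBall _ _).image (comb (S.enflo.e k0)).continuous
  have hL0 : (0 : ℝ) ≤ L := L.coe_nonneg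
  obtain ⟨t, ht, hcov⟩ := Metric.totallyBounded_iff.mp hQ.totallyBounded (ε / (L + 2))
    (by positivity)
  have h1 : ∀ c : S.sub, ∀ᶠ n in Filter.atTop, dist (f n c) c ≤ ε / (L + 2) := by
    intro c
    have := (Metric.tendsto_nhds.mp (hlim c)) (ε / (L + 2)) (by positivity)
    exact this.mono fun n hn => hn.le
  obtain ⟨n, hn⟩ := ((Filter.eventually_all_finite ht).mpr (fun c _ => h1 c)).exists
  refine h (closure (Set.range (f n))) (f n) 0 (S.enflo.e k0) 1 (hK n) (hL n)
    (fun x => subset_closure ⟨x, rfl⟩) one_pos (fun j => by simpa using hε.le) fun s hs => ?_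
  simp only [one_smul, zero_add, mul_one]
  rw [← comb_apply]
  set y := comb (S.enflo.e k0) s with hy
  have hyQ : y ∈ (comb (S.enflo.e k0)) '' Metric.closedBall 0 1 := by
    refine ⟨s, ?_, rfl⟩
    rw [mem_closedBall_zero_iff, pi_norm_le_iff_of_nonneg zero_le_one]
    exact hs
  obtain ⟨c, hc, hyc⟩ := Set.mem_iUnion₂.mp (hcov hyQ)
  have h2 : dist y c ≤ ε / (L + 2) := (Metric.mem_ball.mp hyc).le
  have h3 := (hL n).dist_le_mul y c
  have h4 := hn c hc
  rw [← dist_eq_norm]
  calc dist (f n y) y ≤ dist (f n y) (f n c) + dist (f n c) c + dist c y := dist_triangle4 _ _ _ _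
    _ ≤ L * (ε / (L + 2)) + ε / (L + 2) + ε / (L + 2) := by
        refine add_le_add (add_le_add (h3.trans ?_) h4) (by rw [dist_comm]; exact h2)
        exact mul_le_mul_of_nonneg_left h2 hL0
    _ = ε := by field_simp; ring

end Pool.Agent.Results.MP_ed68f3_an.NotLipApprox
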