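import Mathlib
import Pool.Agent.Lib.MP_ed68f3_an.PiD

set_option autoImplicit false

namespace Pool.Agent.Results.MP_ed68f3_an.PiProperty

open Pool.Agent.Lib.MP_ed68f3_an.Pi

universe u

/-- A separable real Banach space with uniformly bounded finite-rank projections that almost fix
any given finite set contains a generating compact convex Lipschitz retract.  The Lipschitz
constant depends only on the bound for the projections, and the retract can be taken as flat as
one likes along an increasing sequence of finite-dimensional subspaces with dense union. -/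
theorem result (lam : ℝ) :
    ∃ L : NNReal, ∀ (X : Type u) [NormedAddCommGroup X] [NormedSpace ℝ X] [CompleteSpace X]
      [TopologicalSpace.SeparableSpace X],
      (∀ (F : Finset X) (ε : ℝ), 0 < ε → ∃ P : X →L[ℝ] X, P.comp P = P ∧
        FiniteDimensional ℝ (LinearMap.range (P : X →ₗ[ℝ] X)) ∧ ‖P‖ ≤ lam ∧
        ∀ x ∈ F, ‖P x - x‖ ≤ ε) →
      ∀ a : ℕ → ℝ, (∀ d, 0 < a d) →
        ∃ K : Set X, IsCompact K ∧ Convex ℝ K ∧ (0 : X) ∈ K ∧
          (Submodule.span ℝ K).topologicalClosure = ⊤ ∧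
          (∃ r : X → K, LipschitzWith L r ∧ ∀ k : K, r k = k) ∧
          ∃ (E : ℕ → Submodule ℝ X) (ρ : ℕ → ℝ), Monotone E ∧
            (∀ n, FiniteDimensional ℝ (E n)) ∧ Dense (⋃ n, (E n : Set X)) ∧
            ∀ n, 0 < ρ n ∧ (∀ x ∈ E n, ‖x‖ ≤ ρ n → x ∈ K) ∧
              ∀ x ∈ K, Metric.infDist x (E n) ≤ a (Module.finrank ℝ (E n)) * ρ n := by
  refine ⟨(CC (3 * |lam| + 1)).toNNReal, ?_⟩
  intro X _ _ _ _ h a ha
  have : Nonempty X := ⟨0⟩
  obtain ⟨u, hu⟩ := TopologicalSpace.exists_dense_seq X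
  obtain ⟨K, E, ρ, hs⟩ := exists_seq (lam := lam) h u a ha
  have hG := fun n => (hs n).1
  obtain ⟨h1, h2, h3, r, rm, rf, rl⟩ := limit hG (fun n => (hs n).2.1)
    (fun n => (hs n).2.2.2.2.1) (fun n => (hs n).2.2.2.2.2.2)
  have hsub : ∀ n, K n ⊆ closure (⋃ n, K n) := fun n =>
    (Set.subset_iUnion K n).trans subset_closure
  have hd : Dense (⋃ n, (E n : Set X)) := by
    refine Dense.mono ?_ hu
    rintro _ ⟨n, rfl⟩
    exact Set.mem_iUnion.2 ⟨n + 1, (hs n).2.2.2.1⟩
  refine ⟨closure (⋃ n, K n), h1, h2, hsub 0 (hG 0).zero, ?_, ⟨fun x => ⟨r x, rm x⟩, ?_, ?_⟩,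
    E, ρ, monotone_nat_of_le_succ fun n => (hs n).2.2.1, fun n => (hG n).fin, hd,
    fun n => ⟨(hG n).pos, fun x hx hn => hsub n ((hG n).ball x hx hn), fun x hx => ?_⟩⟩
  · refine Submodule.dense_iff_topologicalClosure_eq_top.1 (hd.mono ?_)
    intro x hx
    obtain ⟨n, hn⟩ := Set.mem_iUnion.1 hx
    have hρ := (hG n).pos
    have hx1 : 0 < ‖x‖ + 1 := by positivity
    have hm : (ρ n / (‖x‖ + 1)) • x ∈ K n := by
      refine (hG n).ball _ ((E n).smul_mem _ hn) ?_
      rw [norm_smul, Real.norm_of_nonneg (by positivity), div_mul_eq_mul_div, div_le_iff₀ hx1]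
      nlinarith
    have e : x = ((‖x‖ + 1) / ρ n) • (ρ n / (‖x‖ + 1)) • x := by
      rw [smul_smul]
      have : (‖x‖ + 1) / ρ n * (ρ n / (‖x‖ + 1)) = 1 := by field_simp
      rw [this, one_smul]
    rw [e]
    exact Submodule.smul_mem _ _ (Submodule.subset_span (hsub n hm))
  · refine LipschitzWith.of_dist_le_mul fun x y => ?_
    rw [Subtype.dist_eq, dist_eq_norm, dist_eq_norm]
    exact (rl x trivial y trivial).trans
      (mul_le_mul_of_nonneg_right (Real.le_coe_toNNReal _) (norm_nonneg _))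
  · exact fun k => Subtype.ext (rf k k.2)
  · exact (Metric.infDist_le_infDist_of_subset (hG n).sub ⟨0, (hG n).zero⟩).trans
      ((h3 n x hx).trans (hs n).2.2.2.2.2.1)

end Pool.Agent.Results.MP_ed68f3_an.PiProperty
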